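import Pool.Agent.X16.RC.H
import Pool.Agent.Results.MP_a1568a_nt.DescentRates

set_option autoImplicit false

/-! The record holders of the total stopping time. -/

namespace Pool.Agent.Results.MP_a1568a_nt.DelayRecords

/-- the `3x+1` function -/
def T (n : ℕ) : ℕ := if n % 2 = 0 then n / 2 else (3 * n + 1) / 2

/-- `k` is the total stopping time of `n`: the least `k ≥ 0` with `T^k n = 1` (so it is finite). -/
def IsTime (n k : ℕ) : Prop := IsLeast {j : ℕ | T^[j] n = 1} k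

/-- The sum of the weights of the terms `n, T n, ..., T^(k-1) n`: `u` for each even and `v` for each odd
one.  It is the number of steps if `u = v = 1`, the number of odd terms if `u = 0`, `v = 1`, and the
number of the steps of the map `n ↦ n / 2`, `n ↦ 3 n + 1` if `u = 1`, `v = 2`. -/
def cost (u v k n : ℕ) : ℕ := ∑ j ∈ Finset.range k, if T^[j] n % 2 = 0 then u else v

/-- `n` is a record holder for the weights `u`, `v`: `n` reaches `1`, and every positive integer `m < n`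
reaches `1` at a smaller cost. -/
def IsRecord (u v n : ℕ) : Prop :=
  ∃ k, IsTime n k ∧ ∀ m, 1 ≤ m → m < n → ∃ l, IsTime m l ∧ cost u v l m < cost u v k n

/-- the binary entropy function, in bits -/
noncomputable def H (p : ℝ) : ℝ := Real.binEntropy p / Real.log 2

/-- `g(a) = sup_θ (θ a - log (½ (2^θ + (2/3)^θ)))`. -/
noncomputable def g (a : ℝ) : ℝ :=
  ⨆ θ : ℝ, (θ * a - Real.log ((1 / 2) * ((2 : ℝ) ^ θ + (2 / 3 : ℝ) ^ θ)))

/-- (1) There is `η < H(log_3 2)` (`= 0.9499...`) such that for all weights `u`, `v` the number of the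
record holders up to `x` is at most `K x^η`, `K = K(u, v)`.  (2) Let `γ₀ = 41.677...` be the unique real
`> (½ log (4/3))⁻¹` with `γ₀ g(1/γ₀) = 1`.  For every `ε > 0` and all large `n` some `m ≤ n` has a finite
total stopping time `≥ (γ₀ - ε) log n`; in particular every large record holder `n` of the total
stopping time has a total stopping time `≥ (γ₀ - ε) log n`. -/
theorem result :
    (∃ η : ℝ, η < H (Real.log 2 / Real.log 3) ∧ ∀ u v : ℕ, ∃ K : ℝ, 0 < K ∧ ∀ x : ℝ, 1 ≤ x →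
      ({n : ℕ | 1 ≤ n ∧ (n : ℝ) ≤ x ∧ IsRecord u v n}.ncard : ℝ) ≤ K * x ^ η) ∧
    ∃ γ₀ : ℝ, (γ₀ > ((1 / 2) * Real.log (4 / 3))⁻¹ ∧ γ₀ * g (1 / γ₀) = 1 ∧
        ∀ γ : ℝ, γ > ((1 / 2) * Real.log (4 / 3))⁻¹ → γ * g (1 / γ) = 1 → γ = γ₀) ∧
      (41.6776 < γ₀ ∧ γ₀ < 41.6777) ∧
      ∀ ε : ℝ, 0 < ε → ∃ N : ℕ, ∀ n : ℕ, N ≤ n →
        (∃ m k : ℕ, 1 ≤ m ∧ m ≤ n ∧ IsTime m k ∧ (γ₀ - ε) * Real.log n ≤ k) ∧
        ∀ k : ℕ, IsRecord 1 1 n → IsTime n k → (γ₀ - ε) * Real.log n ≤ k := by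
  constructor
  · obtain ⟨c, B₁, hc, h⟩ := Pool.Agent.Results.MP_a1568a_nt.DescentRates.result
    have h43 : 0 < Real.log (4 / 3) := Real.log_pos (by norm_num)
    set B := max B₁ (2 / Real.log (4 / 3) + 1) with hB
    have hB1 : B₁ ≤ B := le_max_left _ _
    have hB2 : 2 / Real.log (4 / 3) < B := lt_of_lt_of_le (by linarith) (le_max_right _ _)
    have hB0 : 0 < B := lt_trans (by positivity) hB2
    obtain ⟨-, C, hC, hL⟩ := h B hB2
    have hHpos : 0 < H (Real.log 2 / Real.log 3) := by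
      unfold H
      have hl2 : 0 < Real.log 2 := Real.log_pos (by norm_num)
      have hl3 : 0 < Real.log 3 := Real.log_pos (by norm_num)
      have h23 : Real.log 2 < Real.log 3 := Real.log_lt_log (by norm_num) (by norm_num)
      exact div_pos (Real.binEntropy_pos (by positivity) (by rwa [div_lt_one hl3])) hl2
    obtain ⟨η, hη0, hη, hK⟩ := Pool.Agent.X16.RC.count_records (B := B) (c := c B) (C := C) (k := 3)
      hB0.le hC hHpos (hc B hB1) (fun x y hx hy => by
        refine le_trans ?_ (hL x y hx hy)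
        have hsub : {n : ℕ | 1 ≤ n ∧ (n : ℝ) ≤ x ∧ ¬ Pool.Agent.X16.RC.Fast B y n} ⊆
            {n : ℕ | 1 ≤ n ∧ (n : ℝ) ≤ x ∧ ¬ DescentRates.Descends B y n} := by
          rintro n ⟨h1, h2, h3⟩
          refine ⟨h1, h2, fun h4 => h3 ?_⟩
          obtain ⟨m, h5, h6⟩ := h4
          refine ⟨m, h5, h6.trans (mul_le_mul_of_nonneg_left ?_ hB0.le)⟩
          have h7 : 1 ≤ DescentRates.T^[m] n := Pool.Agent.X16.RC.iter_pos h1 m
          have h8 : (1 : ℝ) ≤ (DescentRates.T^[m] n : ℕ) := by exact_mod_cast h7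
          have hn0 : (0 : ℝ) < n := by exact_mod_cast h1
          apply Real.log_le_log (div_pos hn0 (by linarith))
          exact div_le_self hn0.le h8
        exact_mod_cast Set.ncard_le_ncard hsub
          (Pool.Agent.X16.RC.fin_le (fun n => ¬ DescentRates.Descends B y n) x))
    exact ⟨η, hη, hK⟩
  · obtain ⟨γ₀, hnum, hγ, huniq, hpos⟩ := Pool.Agent.H395R2.G3.exists_gamma
    refine ⟨γ₀, ⟨hγ.1, hγ.2, huniq⟩, hnum, fun ε hε => ?_⟩
    obtain ⟨N, hN⟩ := Pool.Agent.X16.RC.large_time (Pool.Agent.H395R2.G3.mu_gt.trans hγ.1) hpos hε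
    exact ⟨N, fun n hn => ⟨hN n hn, fun k hr hk => Pool.Agent.X16.RC.record_large hN hn hr hk⟩⟩

end Pool.Agent.Results.MP_a1568a_nt.DelayRecords
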