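import Pool.Agent.X266.CD.Cor2

set_option autoImplicit false

/-!
# Total stopping times and the digits of `n` in odd bases

Let `q 1, ..., q r` be pairwise coprime odd bases and let `W i` be strongly additive functions of the digits
in base `q i`, for example the sums of the digits. The joint distribution of the total stopping time and the
number of odd terms is the same in all nondegenerate classes given by the residues of the `W i n`, with a power
saving which is uniform over all functions of the total stopping time and the number of odd terms. Moreover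
each such class is sufficient for the logarithmic bound: if `σ(n) ≤ c log n` holds for all elements of one
class, with up to `C X ^ (1 - θ)` exceptions `n ≤ X`, then `σ(n) ≤ c' log n` holds for all integers `n ≥ 2`.

Method: a dispersion argument. For `2 ^ k ≤ X ^ (1 / 16)` the pair (total stopping time, number of odd terms) of
`n > √X` is a function of `T^k(n)` and the number `a` of odd terms before it. For each `a` the number of the
fibres of `T^k` times their range is about `X`, so that every power saving, on average over `h`, for the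
correlations of the digital functions at `n` and `n + h` in residue classes modulo `2 ^ k` is a saving for the
sum. The sufficiency follows from this with the function `n ↦ [n reaches a]` and the uniform lower bound
`c X / a` for the number of the `n` in `(X / 2, X]` which reach `a`.
-/

namespace Pool.Agent.Results.MP_a1568a_nt.DigitClasses

open Filter Topology

/-- the `3x+1` function -/
def T (n : ℕ) : ℕ := if n % 2 = 0 then n / 2 else (3 * n + 1) / 2

/-- the total stopping time, the least `k` with `T^k(n) = 1`, and `⊤ = ∞` if there is none -/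
noncomputable def sigma (n : ℕ) : ℕ∞ := sInf {k : ℕ∞ | ∃ j : ℕ, T^[j] n = 1 ∧ k = j}

/-- the number of odd terms among `n, T n, ..., T^(k-1) n` -/
def odds (k n : ℕ) : ℕ := ((Finset.range k).filter fun i => T^[i] n % 2 = 1).card

/-- the total stopping time truncated at `t`, that is `min (σ(n), t)` -/
noncomputable def truncated (t : ℝ) (n : ℕ) : ℝ := if sigma n = ⊤ then t else min ((sigma n).toNat : ℝ) t

/-- `σ(n)` is finite and at most `y` -/
def AtMost (n : ℕ) (y : ℝ) : Prop := ∃ t : ℕ, sigma n = t ∧ (t : ℝ) ≤ y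

/-- `2 / log (4/3) * log n + x * log 3 * √(2 log n / (log (4/3))^3)` -/
noncomputable def bound (x : ℝ) (n : ℕ) : ℝ :=
  2 / Real.log (4 / 3) * Real.log n
    + x * (Real.log 3 * Real.sqrt (2 * Real.log n / Real.log (4 / 3) ^ 3))

/-- The distribution function of the standard normal law. -/
noncomputable def Phi (x : ℝ) : ℝ :=
  ProbabilityTheory.cdf (ProbabilityTheory.gaussianReal 0 1) x

/-- The total stopping time of `n` is finite, at most `bound x n`, congruent to `a` modulo `m`, and the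
number of odd terms of the trajectory before `1` is reached is congruent to `b` modulo `m`. -/
def Level (m : ℕ) (a b : ℤ) (x : ℝ) (n : ℕ) : Prop :=
  ∃ t : ℕ, sigma n = t ∧ (t : ℝ) ≤ bound x n ∧ (t : ℤ) ≡ a [ZMOD m] ∧ (odds t n : ℤ) ≡ b [ZMOD m]

/-- `W` is a strongly additive function of the digits in base `q`, for example the sum of the digits. -/
def Additive (q : ℕ) (W : ℕ → ℤ) : Prop := ∀ n r, r < q → W (q * n + r) = W n + W r

/-- The greatest common divisor of `m` and of the numbers `W r - r W 1`, `0 ≤ r ≤ q`. For the sum of the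
digits it is the greatest common divisor of `m` and `q - 1`. -/
def obstruction (q : ℕ) (W : ℕ → ℤ) (m : ℕ) : ℕ :=
  Nat.gcd m ((Finset.range (q + 1)).gcd fun r => (W r - r * W 1).natAbs)

/-- The set of the `n` with `W i n ≡ a i` modulo `m i` for all `i`, and `n ≡ b` modulo `M`. -/
def Class {r : ℕ} (m : Fin r → ℕ) (W : Fin r → ℕ → ℤ) (a : Fin r → ℤ) (M : ℕ) (b : ℤ) : Set ℕ :=
  {n | (∀ i, (m i : ℤ) ∣ W i n - a i) ∧ (M : ℤ) ∣ n - b}

open Classical in
/-- The sum of `φ (σ(n), number of odd terms before 1)` over the `n ≤ X` in `E`. -/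
noncomputable def total (φ : ℕ∞ → ℕ → ℝ) (E : Set ℕ) (X : ℕ) : ℝ :=
  ∑ n ∈ (Finset.Icc 1 X).filter (fun n => n ∈ E), φ (sigma n) (odds (sigma n).toNat n)

/-- The number of the `n ≤ X` in `E` with the property `P`. -/
noncomputable def count (E : Set ℕ) (P : ℕ → Prop) (X : ℕ) : ℕ := {n : ℕ | 1 ≤ n ∧ n ≤ X ∧ n ∈ E ∧ P n}.ncard

open Pool.Agent.H499R2.HL Pool.Agent.Y965.PL Pool.Agent.X266.CD Pool.Agent.Y55.DS
open Pool.Agent.H499R2.LT (odn)

theorem T_eq : T = Pool.Agent.H499R2.ND.Tn := by funext a; rfl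

theorem sigma_eq {n k : ℕ} (h : H k n) : sigma n = k := by
  unfold sigma
  rw [T_eq]
  apply le_antisymm
  · exact sInf_le ⟨k, h.1, rfl⟩
  · refine le_sInf ?_
    rintro j ⟨i, hi, rfl⟩
    have : k ≤ i := by
      by_contra hlt
      exact h.2 i (by omega) hi
    exact_mod_cast this

theorem sigma_top {n : ℕ} (h : ¬ ∃ k, H k n) : sigma n = ⊤ := by
  unfold sigma
  rw [T_eq]
  have : {k : ℕ∞ | ∃ j : ℕ, Pool.Agent.H499R2.ND.Tn^[j] n = 1 ∧ k = j} = ∅ := by
    rw [Set.eq_empty_iff_forall_notMem]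
    rintro k ⟨j, hj, _⟩
    exact h (H_iff_ex.2 ⟨j, hj⟩)
  rw [this, sInf_empty]

theorem sigma_ne_top {n : ℕ} : sigma n ≠ ⊤ ↔ ∃ k, H k n := by
  constructor
  · intro h
    by_contra hcon
    exact h (sigma_top hcon)
  · rintro ⟨k, hk⟩
    rw [sigma_eq hk]
    exact ENat.natCast_ne_top k

theorem sigma_iff {n k : ℕ} : sigma n = k ↔ H k n := by
  constructor
  · intro h
    obtain ⟨k', hk'⟩ := sigma_ne_top.1 (show sigma n ≠ ⊤ by rw [h]; exact ENat.natCast_ne_top k)
    have h1 := sigma_eq hk'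
    rw [h] at h1
    have h2 : k = k' := by exact_mod_cast h1
    rw [h2]; exact hk'
  · exact sigma_eq

theorem atMost_iff {n : ℕ} {y : ℝ} : AtMost n y ↔ ∃ k, H k n ∧ valK k (odn k n) ≤ y := by
  unfold AtMost valK
  exact exists_congr fun k => and_congr_left fun _ => sigma_iff

theorem level_iff (m : ℕ) (a b : ℤ) (x : ℝ) (n : ℕ) : Level m a b x n ↔
    Lv valK (clsK m a b) (th (2 / Real.log (4 / 3)) bK x) n := by
  unfold Level Lv valK clsK bK
  refine exists_congr fun k => ?_
  rw [th_eq, sigma_iff]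
  exact Iff.rfl

theorem phi_Fg (φ : ℕ∞ → ℕ → ℝ) (n : ℕ) : φ (sigma n) (odds (sigma n).toNat n) = Fg (fun k o => φ k o) (φ ⊤ 0) n := by
  by_cases h : ∃ k, H k n
  · obtain ⟨k, hk⟩ := h
    rw [Fg_H hk, sigma_eq hk, ENat.toNat_natCast]
    rfl
  · rw [Fg_not h, sigma_top h, ENat.toNat_top]
    rfl

theorem total_eq (φ : ℕ∞ → ℕ → ℝ) {r : ℕ} (m : Fin r → ℕ) (W : Fin r → ℕ → ℤ) (a : Fin r → ℤ) (M : ℕ) (b : ℤ) (X : ℕ) :
    total φ (Class m W a M b) X = ∑ n ∈ Finset.Icc 1 X, ind (Cl m W a M b) n * Fg (fun k o => φ k o) (φ ⊤ 0) n := by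
  classical
  unfold total
  simp only [phi_Fg]
  rw [sum_wt]
  rfl

theorem count_eq (E : Set ℕ) (P : ℕ → Prop) (X : ℕ) :
    (count E P X : ℝ) = ∑ n ∈ Finset.Icc 1 X, ind (fun n => n ∈ E) n * ind P n := count_sum X (fun n => n ∈ E) P

theorem isTr : IsTr valK truncated := by
  constructor
  · intro t n k hk
    unfold truncated
    rw [sigma_eq hk, if_neg (ENat.natCast_ne_top k), ENat.toNat_natCast]
    rfl
  · intro t n hn
    unfold truncated
    rw [sigma_top hn, if_pos rfl]

theorem log_bound {K : ℝ} (hK : 1 ≤ K) (c : ℝ) : ∃ c' : ℝ, ∀ n : ℕ, 2 ≤ n →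
    max c 0 * Real.log (max (K * (n : ℝ) ^ K) 1) + K * (1 + Real.log n) ≤ c' * Real.log n := by
  refine ⟨max c 0 * (2 * Real.log K + K) + 3 * K, fun n hn => ?_⟩
  have hn2 : (2 : ℝ) ≤ n := by exact_mod_cast hn
  have hn0 : (0 : ℝ) < n := by linarith
  have hp : 1 ≤ (n : ℝ) ^ K := Real.one_le_rpow (by linarith) (by linarith)
  have h1 : max (K * (n : ℝ) ^ K) 1 = K * (n : ℝ) ^ K := max_eq_left (by nlinarith)
  rw [h1, Real.log_mul (by positivity) (by positivity), Real.log_rpow hn0]
  have h2 : 1 ≤ 2 * Real.log n := by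
    have := Real.log_two_gt_d9
    have := Real.log_le_log (by norm_num) hn2
    linarith
  have hl : 0 ≤ Real.log n := by linarith
  have hlK : 0 ≤ Real.log K := Real.log_nonneg hK
  have h3 : Real.log K ≤ 2 * Real.log K * Real.log n := by nlinarith
  have hc : 0 ≤ max c 0 := le_max_right _ _
  have h4 : max c 0 * (Real.log K + K * Real.log n) ≤ max c 0 * ((2 * Real.log K + K) * Real.log n) :=
    mul_le_mul_of_nonneg_left (by linarith) hc
  have h5 : K * (1 + Real.log n) ≤ 3 * K * Real.log n := by nlinarith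
  linarith

/-- Let `q 1, ..., q r` be pairwise coprime odd bases, let `W i` be a strongly additive integer valued
function of the digits in base `q i` and let `m i` be positive integers. There is a number `δ`, `0 < δ ≤ 1`,
not depending on these data, with the following properties; `δ = 1` if and only if all the positive integers
have a finite total stopping time.

(1) (Uniform transfer.) For `M ≥ 1` there are `K` and `c > 0` such that for all functions `φ` of the total
stopping time and the number of odd terms, bounded by one, all residues and all `X`, the sum of `φ` over the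
`n ≤ X` with `W i n ≡ a i` modulo `m i` for all `i` and `n ≡ b` modulo `M` is, up to `K X ^ (1 - c)`, the
product of the `g i / m i` times the sum over the `n ≤ X` with `W i 1 n ≡ a i` modulo `g i` and `n ≡ b` modulo
`M`; here `g i` is the greatest common divisor of `m i` and the `W i r - r W i 1`, `0 ≤ r ≤ q i`.

Let now all the `g i` be `1`, and let `E` be the set of the `n` with `W i n ≡ a i` modulo `m i` for all `i`.

(2) (Law.) The `n ∈ E` such that `σ(n)` is finite, at most `bound x n`, congruent to `a'` modulo `m'` and the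
number of odd terms is congruent to `b'` modulo `m'` have the density `∏ (1 / m i) * δ * Phi x / m' ^ 2`.

(3) (Averages.) For `Λ > 2 / log (4/3)` the sum of `min (σ(n), Λ log X)` over the `n ≤ X` in `E`, divided by
`X log X`, tends to `∏ (1 / m i) * (δ * 2 / log (4/3) + (1 - δ) Λ)`.

(4) (Sufficiency.) For `θ > 0` and `C` there is `K` such that for every nondecreasing function `ψ`: if for
every `X` all but `C X ^ (1 - θ)` of the `n ≤ X` in `E` satisfy `σ(n) ≤ ψ(n)`, then
`σ(n) ≤ ψ(K n ^ K) + K (1 + log n)` for all positive integers `n`.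

(5) The open problem has a positive answer, that is `σ(n) ≤ c log n` for some `c` and all `n ≥ 2`, if and only
if for some `c`, `C` and `θ > 0` all but `C X ^ (1 - θ)` of the `n ≤ X` in `E`, `n ≥ 2`, satisfy
`σ(n) ≤ c log n`, for every `X`. -/
theorem result : ∃ δ : ℝ, 0 < δ ∧ δ ≤ 1 ∧ (δ = 1 ↔ ∀ n : ℕ, 1 ≤ n → sigma n ≠ ⊤) ∧
    ∀ (r : ℕ) (q : Fin r → ℕ), (∀ i, 3 ≤ q i ∧ Odd (q i)) → (∀ i j, i ≠ j → Nat.Coprime (q i) (q j)) →
    ∀ W : Fin r → ℕ → ℤ, (∀ i, Additive (q i) (W i)) → ∀ m : Fin r → ℕ, (∀ i, 1 ≤ m i) →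
    (∀ M : ℕ, 1 ≤ M → ∃ K c : ℝ, 0 < c ∧ ∀ φ : ℕ∞ → ℕ → ℝ, (∀ s o, |φ s o| ≤ 1) →
      ∀ (a : Fin r → ℤ) (b : ℤ) (X : ℕ), 1 ≤ X →
        |total φ (Class m W a M b) X - (∏ i, (obstruction (q i) (W i) (m i) : ℝ) / m i) *
          total φ (Class (fun i => obstruction (q i) (W i) (m i)) (fun i n => n * W i 1) a M b) X|
          ≤ K * (X : ℝ) ^ (1 - c)) ∧
    ((∀ i, obstruction (q i) (W i) (m i) = 1) → ∀ a : Fin r → ℤ, ∀ E : Set ℕ, E = {n | ∀ i, (m i : ℤ) ∣ W i n - a i} →
      (∀ (m' : ℕ) (a' b' : ℤ) (x : ℝ), 1 ≤ m' →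
        Tendsto (fun X : ℕ => (count E (Level m' a' b' x) X : ℝ) / X) atTop
          (𝓝 ((∏ i, 1 / (m i : ℝ)) * (δ * Phi x / m' ^ 2)))) ∧
      (∀ Λ : ℝ, 2 / Real.log (4 / 3) < Λ →
        Tendsto (fun X : ℕ => (∑ᶠ n ∈ {n : ℕ | 1 ≤ n ∧ n ≤ X ∧ n ∈ E}, truncated (Λ * Real.log X) n) / (X * Real.log X))
          atTop (𝓝 ((∏ i, 1 / (m i : ℝ)) * (δ * (2 / Real.log (4 / 3)) + (1 - δ) * Λ)))) ∧
      (∀ θ C : ℝ, 0 < θ → ∃ K : ℝ, ∀ ψ : ℝ → ℝ, Monotone ψ →
        (∀ X : ℕ, 1 ≤ X → (count E (fun n => ¬ AtMost n (ψ n)) X : ℝ) ≤ C * (X : ℝ) ^ (1 - θ)) →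
        ∀ n : ℕ, 1 ≤ n → AtMost n (ψ (K * (n : ℝ) ^ K) + K * (1 + Real.log n))) ∧
      ((∃ c : ℝ, ∀ n : ℕ, 2 ≤ n → AtMost n (c * Real.log n)) ↔
        ∃ c θ C : ℝ, 0 < θ ∧ ∀ X : ℕ, 1 ≤ X →
          (count E (fun n => 2 ≤ n ∧ ¬ AtMost n (c * Real.log n)) X : ℝ) ≤ C * (X : ℝ) ^ (1 - θ))) := by
  classical
  obtain ⟨δ, hδ, h2, h3⟩ := nat1
  have hν := nu_pos'
  refine ⟨δ, hδ.pos, hδ.le, ?_, ?_⟩
  · rw [h2]
    refine forall₂_congr fun n _ => ?_
    rw [sigma_ne_top, H_iff_ex]
  intro r q hq hc W hW m hm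
  have hq3 : ∀ i, 3 ≤ q i := fun i => (hq i).1
  have hqd : ∀ i, Nat.Coprime 2 (q i) := fun i => Nat.coprime_two_left.2 (hq i).2
  refine ⟨fun M hM => ?_, fun hobs a E hE => ?_⟩
  · obtain ⟨C, c, hC, hc0, -, HT⟩ := dig_tr q hq3 hqd hc W hW m hm hM
    refine ⟨C, c, hc0, fun φ hφ a b X hX => ?_⟩
    rw [total_eq, total_eq]
    exact HT a b X hX _ _ (fun k o => hφ _ _) (hφ _ _)
  · obtain ⟨C, c, hC, hc0, hc1, HT⟩ := dig_tr1 q hq3 hqd hc W hW m hm hobs (M := 1) le_rfl
    have HT' : ∀ N : ℕ, 1 ≤ N → TrF (ind (Cl m W a 1 0)) (fun _ => (1 : ℝ)) (∏ i, (1 / (m i : ℝ))) (C * (N : ℝ) ^ (1 - c)) N := by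
      intro N hN
      have h := HT a 0 N hN
      rw [ind_all] at h
      exact h
    have hEc : ∀ n, n ∈ E ↔ Cl m W a 1 0 n := by
      intro n
      rw [hE]
      unfold Cl
      simp
    have hEi : ind (fun n => n ∈ E) = ind (Cl m W a 1 0) := by
      funext n; exact ind_congr (hEc n)
    have hρ : 0 ≤ ∏ i, (1 / (m i : ℝ)) := Finset.prod_nonneg fun i _ => by positivity
    have hsuff : ∀ θ C : ℝ, 0 < θ → ∃ K : ℝ, 1 ≤ K ∧ ∀ ψ : ℝ → ℝ, Monotone ψ →
        (∀ X : ℕ, 1 ≤ X → (count E (fun n => ¬ AtMost n (ψ n)) X : ℝ) ≤ C * (X : ℝ) ^ (1 - θ)) →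
        ∀ n : ℕ, 1 ≤ n → AtMost n (ψ (K * (n : ℝ) ^ K) + K * (1 + Real.log n)) := by
      intro θ C' hθ
      have hR := rich_dig q hq3 hqd hc W hW m hm hobs (M := 1) le_rfl a 0
      have hB := baseLB_all (B := fun n : ℕ => ((1 : ℕ) : ℤ) ∣ n - 0) (fun n => by simp)
      obtain ⟨K, hK, HK⟩ := suff_ind hR hB (B' := fun _ => True) hN_all adv_K (C0 := C') hθ
      refine ⟨K, hK, fun ψ hψ hbad n hn => ?_⟩
      rw [atMost_iff]
      refine HK ψ hψ (fun X hX => ?_) n hn trivial
      have h1 := hbad X hX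
      rw [count_eq, hEi] at h1
      simp only [atMost_iff] at h1
      rw [sub_zero]
      exact h1
    refine ⟨?_, ?_, ?_, ?_⟩
    · intro m' a' b' x hm'
      have h1 := dens_of (A := 2 / Real.log (4 / 3)) (b := bK) (val := valK) (cls := clsK m' a' b')
        (d := fun x => δ * Pool.Agent.H499R2.ND.Phi x / m' ^ 2) (by positivity) bK_pos
        ((Pool.Agent.H499R2.ND.Phi_continuous.const_mul δ).div_const _)
        (v := fun _ => 1) (w := ind (Cl m W a 1 0)) (fun n => ⟨zero_le_one, le_rfl⟩) (fun n => ind_nonneg _ _)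
        (fun y => by simpa using hδ.lawK m' a' b' hm' y) hρ hC hc0 hc1 HT' x
      have e : Pool.Agent.H499R2.ND.Phi x = Phi x := Pool.Agent.H499R2.ND.phi_cdf x
      simp only [e] at h1
      unfold Mn at h1
      refine h1.congr fun X => ?_
      rw [count_eq, hEi]
      congr 1
      apply Finset.sum_congr rfl
      intro n _
      rw [ind_congr (level_iff m' a' b' x n)]
    · intro Λ hΛ
      have hΛ0 : 0 < Λ := lt_trans (by positivity) hΛ
      have h1 := avg_tendsto (fun _ _ => Nat.cast_nonneg _) isTr hΛ0 (base_K hδ isTr hΛ) hρ hc0 HT'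
      refine h1.congr fun X => ?_
      congr 1
      rw [fin_sum X (fun n => n ∈ E), hEi]
    · intro θ C' hθ
      obtain ⟨K, -, HK⟩ := hsuff θ C' hθ
      exact ⟨K, HK⟩
    · constructor
      · rintro ⟨c', hc'⟩
        refine ⟨c', 1, 0, one_pos, fun X hX => ?_⟩
        rw [count_eq, zero_mul]
        refine le_of_eq (Finset.sum_eq_zero fun n _ => ?_)
        rw [ind_neg (P := fun n => 2 ≤ n ∧ ¬ AtMost n (c' * Real.log n)) (fun h => h.2 (hc' n h.1)), mul_zero]
      · rintro ⟨c', θ, C', hθ, hbad⟩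
        obtain ⟨K, hK, HK⟩ := hsuff θ C' hθ
        have hψ : Monotone (fun y : ℝ => max c' 0 * Real.log (max y 1)) := by
          intro y z hyz
          apply mul_le_mul_of_nonneg_left _ (le_max_right _ _)
          exact Real.log_le_log (by positivity) (max_le_max_right _ hyz)
        obtain ⟨c'', hc''⟩ := log_bound hK c'
        refine ⟨c'', fun n hn => ?_⟩
        have hb : ∀ X : ℕ, 1 ≤ X → (count E (fun n => ¬ AtMost n ((fun y : ℝ => max c' 0 * Real.log (max y 1)) n)) X : ℝ) ≤
            C' * (X : ℝ) ^ (1 - θ) := by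
          intro X hX
          refine le_trans ?_ (hbad X hX)
          rw [count_eq, count_eq]
          apply Finset.sum_le_sum
          intro n hn
          rw [Finset.mem_Icc] at hn
          apply mul_le_mul_of_nonneg_left _ (ind_nonneg _ _)
          have hnR : (1 : ℝ) ≤ n := by exact_mod_cast hn.1
          apply ind_mono
          intro k4
          beta_reduce at k4
          rw [max_eq_left hnR] at k4
          refine ⟨?_, fun k5 => k4 ?_⟩
          · by_contra hcon
            have : n = 1 := by omega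
            subst this
            exact k4 ⟨0, sigma_eq H_one, by simp⟩
          · obtain ⟨t, ht1, ht2⟩ := k5
            refine ⟨t, ht1, ht2.trans ?_⟩
            exact mul_le_mul_of_nonneg_right (le_max_left _ _) (Real.log_nonneg hnR)
        obtain ⟨t, ht1, ht2⟩ := HK _ hψ hb n (by omega)
        exact ⟨t, ht1, ht2.trans (hc'' n hn)⟩

end Pool.Agent.Results.MP_a1568a_nt.DigitClasses
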