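import Pool.Agent.X266.CD.Cor2

set_option autoImplicit false

/-!
# Total stopping times and the fractional parts of polynomials

Let `α` be irrational and not a Liouville number and let `P` be a real polynomial of degree `k ≥ 2` with leading
coefficient `α`. The joint distribution of the total stopping time and the number of odd terms of the `n` for which
the fractional part of `P n` is in an interval is that of all integers, with a power saving which is uniform over all
functions of the total stopping time and the number of odd terms, over the polynomials and over the intervals;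
so this also holds in the sparse sets of the `n ≤ X` with fractional part less than `X ^ (-ν)`. Moreover each of
the sparse sets `E = {n : {P n} < n ^ (-ν)}` is sufficient for the logarithmic bound: if `σ(n) ≤ c log n` holds for
all elements of `E`, with up to `C X ^ (1 - ν - θ)` exceptions `n ≤ X`, then `σ(n) ≤ c' log n` holds for all integers
`n ≥ 2`.

Method: a dispersion argument. For `2 ^ k ≤ X ^ (1 / 16)` the pair (total stopping time, number of odd terms) of
`n > √X` is a function of `T^k(n)` and the number `a` of odd terms before it. For each `a` the number of the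
fibres of `T^k` times their range is about `X`, so that every power saving, on average over `h`, for the
correlations of the phases `P` at `n` and `n + h` in residue classes modulo `2 ^ k` is a saving for the
sum. The sufficiency follows from this with the function `n ↦ [n reaches a]` and the uniform lower bound
`c X / a` for the number of the `n` in `(X / 2, X]` which reach `a`.
-/

namespace Pool.Agent.Results.MP_a1568a_nt.FractionalParts

open Filter Topology

/-- the `3x+1` function -/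
def T (n : ℕ) : ℕ := if n % 2 = 0 then n / 2 else (3 * n + 1) / 2

/-- the total stopping time, the least `k` with `T^k(n) = 1`, and `⊤ = ∞` if there is none -/
noncomputable def sigma (n : ℕ) : ℕ∞ := sInf {k : ℕ∞ | ∃ j : ℕ, T^[j] n = 1 ∧ k = j}

/-- the number of odd terms among `n, T n, ..., T^(k-1) n` -/
def odds (k n : ℕ) : ℕ := ((Finset.range k).filter fun i => T^[i] n % 2 = 1).card

/-- the total stopping time truncated at `t`, that is `min (σ(n), t)` -/
noncomputable def truncated (t : ℝ) (n : ℕ) : ℝ := if sigma n = ⊤ then t else min ((sigma n).toNat : ℝ) t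

/-- `σ(n)` is finite and at most `y` -/
def AtMost (n : ℕ) (y : ℝ) : Prop := ∃ t : ℕ, sigma n = t ∧ (t : ℝ) ≤ y

/-- `2 / log (4/3) * log n + x * log 3 * √(2 log n / (log (4/3))^3)` -/
noncomputable def bound (x : ℝ) (n : ℕ) : ℝ :=
  2 / Real.log (4 / 3) * Real.log n
    + x * (Real.log 3 * Real.sqrt (2 * Real.log n / Real.log (4 / 3) ^ 3))

/-- The distribution function of the standard normal law. -/
noncomputable def Phi (x : ℝ) : ℝ :=
  ProbabilityTheory.cdf (ProbabilityTheory.gaussianReal 0 1) x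

/-- The total stopping time of `n` is finite, at most `bound x n`, congruent to `a` modulo `m`, and the
number of odd terms of the trajectory before `1` is reached is congruent to `b` modulo `m`. -/
def Level (m : ℕ) (a b : ℤ) (x : ℝ) (n : ℕ) : Prop :=
  ∃ t : ℕ, sigma n = t ∧ (t : ℝ) ≤ bound x n ∧ (t : ℤ) ≡ a [ZMOD m] ∧ (odds t n : ℤ) ≡ b [ZMOD m]

/-- `α` is irrational and not a Liouville number. -/
def Diophantine (α : ℝ) : Prop :=
  ∃ A c : ℝ, 0 < c ∧ ∀ l : ℕ, 1 ≤ l → ∀ a : ℤ, c * (l : ℝ) ^ (-A) ≤ |l * α - a|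

/-- The set of the `n` for which the fractional part of `P n` is in `[u, v)`. -/
def Part (P : Polynomial ℝ) (u v : ℝ) : Set ℕ := {n | u ≤ Int.fract (P.eval (n : ℝ)) ∧ Int.fract (P.eval (n : ℝ)) < v}

/-- The set of the `n` for which the fractional part of `P n` is less than `n ^ (-ν)`. -/
def Sparse (P : Polynomial ℝ) (ν : ℝ) : Set ℕ := {n | Int.fract (P.eval (n : ℝ)) < (n : ℝ) ^ (-ν)}

open Classical in
/-- The sum of `φ (σ(n), number of odd terms before 1)` over the `n ≤ X` in `E` with `n ≡ b` modulo `M`. -/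
noncomputable def total (φ : ℕ∞ → ℕ → ℝ) (M : ℕ) (b : ℤ) (E : Set ℕ) (X : ℕ) : ℝ :=
  ∑ n ∈ (Finset.Icc 1 X).filter (fun n : ℕ => (M : ℤ) ∣ n - b ∧ n ∈ E), φ (sigma n) (odds (sigma n).toNat n)

/-- The number of the `n ≤ X` in `E` with the property `P`. -/
noncomputable def count (E : Set ℕ) (P : ℕ → Prop) (X : ℕ) : ℕ := {n : ℕ | 1 ≤ n ∧ n ≤ X ∧ n ∈ E ∧ P n}.ncard

open Pool.Agent.H499R2.HL Pool.Agent.Y965.PL Pool.Agent.X266.CD Pool.Agent.Y55.DS
open Pool.Agent.H499R2.LT (odn)

theorem T_eq : T = Pool.Agent.H499R2.ND.Tn := by funext a; rfl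

theorem sigma_eq {n k : ℕ} (h : H k n) : sigma n = k := by
  unfold sigma
  rw [T_eq]
  apply le_antisymm
  · exact sInf_le ⟨k, h.1, rfl⟩
  · refine le_sInf ?_
    rintro j ⟨i, hi, rfl⟩
    have : k ≤ i := by
      by_contra hlt
      exact h.2 i (by omega) hi
    exact_mod_cast this

theorem sigma_top {n : ℕ} (h : ¬ ∃ k, H k n) : sigma n = ⊤ := by
  unfold sigma
  rw [T_eq]
  have : {k : ℕ∞ | ∃ j : ℕ, Pool.Agent.H499R2.ND.Tn^[j] n = 1 ∧ k = j} = ∅ := by
    rw [Set.eq_empty_iff_forall_notMem]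
    rintro k ⟨j, hj, _⟩
    exact h (H_iff_ex.2 ⟨j, hj⟩)
  rw [this, sInf_empty]

theorem sigma_ne_top {n : ℕ} : sigma n ≠ ⊤ ↔ ∃ k, H k n := by
  constructor
  · intro h
    by_contra hcon
    exact h (sigma_top hcon)
  · rintro ⟨k, hk⟩
    rw [sigma_eq hk]
    exact ENat.natCast_ne_top k

theorem sigma_iff {n k : ℕ} : sigma n = k ↔ H k n := by
  constructor
  · intro h
    obtain ⟨k', hk'⟩ := sigma_ne_top.1 (show sigma n ≠ ⊤ by rw [h]; exact ENat.natCast_ne_top k)
    have h1 := sigma_eq hk'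
    rw [h] at h1
    have h2 : k = k' := by exact_mod_cast h1
    rw [h2]; exact hk'
  · exact sigma_eq

theorem atMost_iff {n : ℕ} {y : ℝ} : AtMost n y ↔ ∃ k, H k n ∧ valK k (odn k n) ≤ y := by
  unfold AtMost valK
  exact exists_congr fun k => and_congr_left fun _ => sigma_iff

theorem level_iff (m : ℕ) (a b : ℤ) (x : ℝ) (n : ℕ) : Level m a b x n ↔
    Lv valK (clsK m a b) (th (2 / Real.log (4 / 3)) bK x) n := by
  unfold Level Lv valK clsK bK
  refine exists_congr fun k => ?_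
  rw [th_eq, sigma_iff]
  exact Iff.rfl

theorem phi_Fg (φ : ℕ∞ → ℕ → ℝ) (n : ℕ) : φ (sigma n) (odds (sigma n).toNat n) = Fg (fun k o => φ k o) (φ ⊤ 0) n := by
  by_cases h : ∃ k, H k n
  · obtain ⟨k, hk⟩ := h
    rw [Fg_H hk, sigma_eq hk, ENat.toNat_natCast]
    rfl
  · rw [Fg_not h, sigma_top h, ENat.toNat_top]
    rfl

theorem total_eq (φ : ℕ∞ → ℕ → ℝ) (M : ℕ) (b : ℤ) (P : Polynomial ℝ) (u v : ℝ) (X : ℕ) :
    total φ M b (Part P u v) X = ∑ n ∈ Finset.Icc 1 X, ind (Fr M b P u v) n * Fg (fun k o => φ k o) (φ ⊤ 0) n := by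
  classical
  unfold total
  simp only [phi_Fg]
  rw [sum_wt]
  rfl

theorem total_univ (φ : ℕ∞ → ℕ → ℝ) (M : ℕ) (b : ℤ) (X : ℕ) :
    total φ M b Set.univ X = ∑ n ∈ Finset.Icc 1 X, ind (fun n => (M : ℤ) ∣ n - b) n * Fg (fun k o => φ k o) (φ ⊤ 0) n := by
  classical
  unfold total
  simp only [phi_Fg]
  rw [sum_wt]
  apply Finset.sum_congr rfl
  intro n _
  congr 1
  apply ind_congr
  simp

theorem count_eq (E : Set ℕ) (P : ℕ → Prop) (X : ℕ) :
    (count E P X : ℝ) = ∑ n ∈ Finset.Icc 1 X, ind (fun n => n ∈ E) n * ind P n := count_sum X (fun n => n ∈ E) P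

theorem isTr : IsTr valK truncated := by
  constructor
  · intro t n k hk
    unfold truncated
    rw [sigma_eq hk, if_neg (ENat.natCast_ne_top k), ENat.toNat_natCast]
    rfl
  · intro t n hn
    unfold truncated
    rw [sigma_top hn, if_pos rfl]

theorem log_bound {K : ℝ} (hK : 1 ≤ K) (c : ℝ) : ∃ c' : ℝ, ∀ n : ℕ, 2 ≤ n →
    max c 0 * Real.log (max (K * (n : ℝ) ^ K) 1) + K * (1 + Real.log n) ≤ c' * Real.log n := by
  refine ⟨max c 0 * (2 * Real.log K + K) + 3 * K, fun n hn => ?_⟩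
  have hn2 : (2 : ℝ) ≤ n := by exact_mod_cast hn
  have hn0 : (0 : ℝ) < n := by linarith
  have hp : 1 ≤ (n : ℝ) ^ K := Real.one_le_rpow (by linarith) (by linarith)
  have h1 : max (K * (n : ℝ) ^ K) 1 = K * (n : ℝ) ^ K := max_eq_left (by nlinarith)
  rw [h1, Real.log_mul (by positivity) (by positivity), Real.log_rpow hn0]
  have h2 : 1 ≤ 2 * Real.log n := by
    have := Real.log_two_gt_d9
    have := Real.log_le_log (by norm_num) hn2
    linarith
  have hl : 0 ≤ Real.log n := by linarith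
  have hlK : 0 ≤ Real.log K := Real.log_nonneg hK
  have h3 : Real.log K ≤ 2 * Real.log K * Real.log n := by nlinarith
  have hc : 0 ≤ max c 0 := le_max_right _ _
  have h4 : max c 0 * (Real.log K + K * Real.log n) ≤ max c 0 * ((2 * Real.log K + K) * Real.log n) :=
    mul_le_mul_of_nonneg_left (by linarith) hc
  have h5 : K * (1 + Real.log n) ≤ 3 * K * Real.log n := by nlinarith
  linarith

/-- There is a number `δ`, `0 < δ ≤ 1`, with the following properties; `δ = 1` if and only if all the positive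
integers have a finite total stopping time. Let `k ≥ 2` and let `α` be irrational and not a Liouville number.
All the polynomials `P` below have degree `k` and the leading coefficient `α`.

(1) (Uniform transfer.) For `M ≥ 1` there are `K` and `c > 0` such that for all functions `φ` of the total
stopping time and the number of odd terms, bounded by one, all `P`, `0 ≤ u ≤ v ≤ 1`, `b` and `X`, the sum of `φ`
over the `n ≤ X`, `n ≡ b` modulo `M`, with the fractional part of `P n` in `[u, v)` is, up to `K X ^ (1 - c)`,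
`v - u` times the sum over all `n ≤ X`, `n ≡ b` modulo `M`.

There are `K` and `c > 0` such that for every `ε > 0` and all large `X`, for all `P` and `0 ≤ u ≤ v ≤ 1` at once:

(2) (Law.) The number of the `n ≤ X` with the fractional part of `P n` in `[u, v)` such that `σ(n)` is finite, at
most `bound x n`, congruent to `a'` modulo `m'` and the number of odd terms is congruent to `b'` modulo `m'` is
`(v - u) * δ * Phi x / m' ^ 2 * X`, up to `ε (v - u) X + K X ^ (1 - c)`.

(3) (Averages.) For `Λ > 2 / log (4/3)` the sum of `min (σ(n), Λ log X)` over the `n ≤ X` with the fractional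
part of `P n` in `[u, v)`, divided by `log X`, is `(v - u) (δ * 2 / log (4/3) + (1 - δ) Λ) X`, up to
`ε (v - u) X + K Λ X ^ (1 - c)`.

There is `ν₀ > 0`, depending on `k` and `α` only, such that for all `P` and `0 ≤ ν < ν₀`:

(4) (Sufficiency.) For `θ > 0` and `C` there is `K` such that for every nondecreasing function `ψ`: if for
every `X` all but `C X ^ (1 - ν - θ)` of the `n ≤ X` for which the fractional part of `P n` is less than
`n ^ (-ν)` satisfy `σ(n) ≤ ψ(n)`, then `σ(n) ≤ ψ(K n ^ K) + K (1 + log n)` for all positive integers `n`.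

(5) The open problem has a positive answer, that is `σ(n) ≤ c log n` for some `c` and all `n ≥ 2`, if and only
if for some `c`, `C` and `θ > 0`, for every `X`, all but `C X ^ (1 - ν - θ)` of the `n`, `2 ≤ n ≤ X`, for which the
fractional part of `P n` is less than `n ^ (-ν)` satisfy `σ(n) ≤ c log n`. -/
theorem result : ∃ δ : ℝ, 0 < δ ∧ δ ≤ 1 ∧ (δ = 1 ↔ ∀ n : ℕ, 1 ≤ n → sigma n ≠ ⊤) ∧
    ∀ (k : ℕ) (α : ℝ), 2 ≤ k → Diophantine α →
    (∀ M : ℕ, 1 ≤ M → ∃ K c : ℝ, 0 < c ∧ ∀ φ : ℕ∞ → ℕ → ℝ, (∀ s o, |φ s o| ≤ 1) →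
      ∀ P : Polynomial ℝ, P.natDegree ≤ k → P.coeff k = α → ∀ u v : ℝ, 0 ≤ u → u ≤ v → v ≤ 1 →
      ∀ (b : ℤ) (X : ℕ), 1 ≤ X →
        |total φ M b (Part P u v) X - (v - u) * total φ M b Set.univ X| ≤ K * (X : ℝ) ^ (1 - c)) ∧
    (∃ K c : ℝ, 0 < c ∧
      (∀ (m' : ℕ) (a' b' : ℤ) (x ε : ℝ), 1 ≤ m' → 0 < ε → ∃ X₀ : ℕ, ∀ X : ℕ, X₀ ≤ X →
        ∀ P : Polynomial ℝ, P.natDegree ≤ k → P.coeff k = α → ∀ u v : ℝ, 0 ≤ u → u ≤ v → v ≤ 1 →
          |(count (Part P u v) (Level m' a' b' x) X : ℝ) - (v - u) * (δ * Phi x / m' ^ 2 * X)| ≤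
            ε * (v - u) * X + K * (X : ℝ) ^ (1 - c)) ∧
      (∀ Λ ε : ℝ, 2 / Real.log (4 / 3) < Λ → 0 < ε → ∃ X₀ : ℕ, ∀ X : ℕ, X₀ ≤ X →
        ∀ P : Polynomial ℝ, P.natDegree ≤ k → P.coeff k = α → ∀ u v : ℝ, 0 ≤ u → u ≤ v → v ≤ 1 →
          |(∑ᶠ n ∈ {n : ℕ | 1 ≤ n ∧ n ≤ X ∧ n ∈ Part P u v}, truncated (Λ * Real.log X) n) / Real.log X -
            (v - u) * ((δ * (2 / Real.log (4 / 3)) + (1 - δ) * Λ) * X)| ≤
            ε * (v - u) * X + Λ * (K * (X : ℝ) ^ (1 - c)))) ∧
    (∃ ν₀ : ℝ, 0 < ν₀ ∧ ∀ P : Polynomial ℝ, P.natDegree ≤ k → P.coeff k = α → ∀ ν : ℝ, 0 ≤ ν → ν < ν₀ →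
      (∀ θ C : ℝ, 0 < θ → ∃ K : ℝ, ∀ ψ : ℝ → ℝ, Monotone ψ →
        (∀ X : ℕ, 1 ≤ X → (count (Sparse P ν) (fun n => ¬ AtMost n (ψ n)) X : ℝ) ≤ C * (X : ℝ) ^ (1 - ν - θ)) →
        ∀ n : ℕ, 1 ≤ n → AtMost n (ψ (K * (n : ℝ) ^ K) + K * (1 + Real.log n))) ∧
      ((∃ c : ℝ, ∀ n : ℕ, 2 ≤ n → AtMost n (c * Real.log n)) ↔
        ∃ c θ C : ℝ, 0 < θ ∧ ∀ X : ℕ, 1 ≤ X →
          (count (Sparse P ν) (fun n => 2 ≤ n ∧ ¬ AtMost n (c * Real.log n)) X : ℝ) ≤ C * (X : ℝ) ^ (1 - ν - θ))) := by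
  classical
  obtain ⟨δ, hδ, h2, h3⟩ := nat1
  have hν := nu_pos'
  refine ⟨δ, hδ.pos, hδ.le, ?_, ?_⟩
  · rw [h2]
    refine forall₂_congr fun n _ => ?_
    rw [sigma_ne_top, H_iff_ex]
  intro k α hk hα
  obtain ⟨k, rfl⟩ : ∃ k', k = k' + 1 := ⟨k - 1, by omega⟩
  have hk1 : 1 ≤ k := by omega
  have hα' : Dioph α := hα
  have hEi : ∀ (P : Polynomial ℝ) (u v : ℝ), ind (fun n => n ∈ Part P u v) = ind (Fr 1 0 P u v) := by
    intro P u v
    funext n
    apply ind_congr
    unfold Fr Part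
    simp
  refine ⟨fun M hM => ?_, ?_, ?_⟩
  · obtain ⟨K, c, hc⟩ : ∃ K c : ℝ, 0 < c ∧ ∀ b ∈ Finset.range M, ∀ φ : ℕ∞ → ℕ → ℝ, (∀ s o, |φ s o| ≤ 1) →
        ∀ P : Polynomial ℝ, P.natDegree ≤ k + 1 → P.coeff (k + 1) = α → ∀ u v : ℝ, 0 ≤ u → u ≤ v → v ≤ 1 →
        ∀ (X : ℕ), 1 ≤ X →
        |total φ M b (Part P u v) X - (v - u) * total φ M b Set.univ X| ≤ K * (X : ℝ) ^ (1 - c) := by
      have h1 : ∀ b : ℕ, ∃ K c : ℝ, 0 ≤ K ∧ 0 < c ∧ ∀ φ : ℕ∞ → ℕ → ℝ, (∀ s o, |φ s o| ≤ 1) →
          ∀ P : Polynomial ℝ, P.natDegree ≤ k + 1 → P.coeff (k + 1) = α → ∀ u v : ℝ, 0 ≤ u → u ≤ v → v ≤ 1 →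
          ∀ (X : ℕ), 1 ≤ X →
          |total φ M b (Part P u v) X - (v - u) * total φ M b Set.univ X| ≤ K * (X : ℝ) ^ (1 - c) := by
        intro b
        obtain ⟨C, c, hC, hc0, -, HT⟩ := pol_tr hk1 hα' hM (b : ℤ)
        refine ⟨C, c, hC, hc0, fun φ hφ P hP hPc u v hu huv hv X hX => ?_⟩
        rw [total_eq, total_univ]
        exact HT P hP hPc u v hu huv hv X hX _ _ (fun k o => hφ _ _) (hφ _ _)
      choose K c hK hc H using h1
      obtain ⟨c0, hc0, hc0'⟩ := exists_lower (Finset.range M) c hc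
      refine ⟨∑ b ∈ Finset.range M, K b, c0, hc0, fun b hb φ hφ P hP hPc u v hu huv hv X hX => ?_⟩
      refine (H b φ hφ P hP hPc u v hu huv hv X hX).trans ?_
      have hXR : (1 : ℝ) ≤ X := by exact_mod_cast hX
      exact mul_le_mul (Finset.single_le_sum (f := K) (fun i _ => hK i) hb)
        (Real.rpow_le_rpow_of_exponent_le hXR (by linarith [hc0' b hb])) (by positivity)
        (Finset.sum_nonneg fun i _ => hK i)
    refine ⟨K, c, hc.1, fun φ hφ P hP hPc u v hu huv hv b X hX => ?_⟩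
    have hMz : (0 : ℤ) < M := by exact_mod_cast hM
    have hb0 := Int.emod_nonneg b hMz.ne'
    have hb1 := Int.emod_lt_of_pos b hMz
    have h4 := hc.2 (b % M).toNat (Finset.mem_range.2 (by omega)) φ hφ P hP hPc u v hu huv hv X hX
    have h5 : (((b % M).toNat : ℕ) : ℤ) = b % M := Int.toNat_of_nonneg hb0
    have h6 : ∀ E : Set ℕ, total φ M (((b % M).toNat : ℕ) : ℤ) E X = total φ M b E X := by
      intro E
      unfold total
      apply Finset.sum_congr _ fun _ _ => rfl
      apply Finset.filter_congr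
      intro n _
      apply and_congr_left
      intro _
      rw [h5]
      have h7 : (n : ℤ) - b = (n - b % M) - M * (b / M) := by
        have := Int.mul_ediv_add_emod b M
        linarith
      rw [h7]
      exact (dvd_sub_left (dvd_mul_right _ _)).symm
    rw [h6, h6] at h4
    exact h4
  · obtain ⟨C, c, hC, hc0, hc1, HT⟩ := pol_tr hk1 hα' (M := 1) le_rfl 0
    have HT' : ∀ P : Polynomial ℝ, P.natDegree ≤ k + 1 → P.coeff (k + 1) = α → ∀ u v : ℝ, 0 ≤ u → u ≤ v → v ≤ 1 →
        ∀ N : ℕ, 1 ≤ N → TrF (ind (Fr 1 0 P u v)) (fun _ => (1 : ℝ)) (v - u) (C * (N : ℝ) ^ (1 - c)) N := by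
      intro P hP hPc u v hu huv hv N hN
      have h := HT P hP hPc u v hu huv hv N hN
      rw [ind_all] at h
      exact h
    refine ⟨2 * C, c, hc0, ?_, ?_⟩
    · intro m' a' b' x ε hm' hε
      obtain ⟨N0, h⟩ := law_of_tr (A := 2 / Real.log (4 / 3)) (b := bK) (val := valK) (cls := clsK m' a' b')
        (d := fun x => δ * Pool.Agent.H499R2.ND.Phi x / m' ^ 2) (by positivity) bK_pos
        ((Pool.Agent.H499R2.ND.Phi_continuous.const_mul δ).div_const _)
        (v := fun _ => 1) (fun n => ⟨zero_le_one, le_rfl⟩)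
        (fun y => by simpa using hδ.lawK m' a' b' hm' y) x hε
      refine ⟨N0, fun X hX P hP hPc u v hu huv hv => ?_⟩
      have h1 := h X hX (ind (Fr 1 0 P u v)) (v - u) (C * (X : ℝ) ^ (1 - c)) (fun n => ind_nonneg _ _) (by linarith)
        (fun M h4 h5 g g0 hg hg0 => (HT' P hP hPc u v hu huv hv M h4 g g0 hg hg0).trans (pow_le hC hc1 h5))
      have e : Pool.Agent.H499R2.ND.Phi x = Phi x := Pool.Agent.H499R2.ND.phi_cdf x
      rw [e] at h1
      rw [count_eq, hEi]
      have e2 : ∑ n ∈ Finset.Icc 1 X, ind (Fr 1 0 P u v) n * ind (Level m' a' b' x) n = ∑ n ∈ Finset.Icc 1 X,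
          ind (Fr 1 0 P u v) n * ind (Lv valK (clsK m' a' b') (th (2 / Real.log (4 / 3)) bK x)) n := by
        apply Finset.sum_congr rfl
        intro n _
        rw [ind_congr (level_iff m' a' b' x n)]
      rw [e2, mul_assoc 2 C]
      exact h1
    · intro Λ ε hΛ hε
      have hΛ0 : 0 < Λ := lt_trans (by positivity) hΛ
      obtain ⟨N0, h⟩ := avg_of (fun _ _ => Nat.cast_nonneg _) isTr hΛ0 (base_K hδ isTr hΛ) hε
      refine ⟨max N0 1, fun X hX P hP hPc u v hu huv hv => ?_⟩
      have hX1 : 1 ≤ X := (le_max_right _ _).trans hX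
      have h1 := h X ((le_max_left _ _).trans hX) (ind (Fr 1 0 P u v)) (v - u) _ (by linarith)
        (HT' P hP hPc u v hu huv hv X hX1)
      rw [fin_sum X (fun n => n ∈ Part P u v), hEi]
      refine h1.trans ?_
      have h4 : 0 ≤ Λ * (C * (X : ℝ) ^ (1 - c)) := by positivity
      have h5 : Λ * (2 * C * (X : ℝ) ^ (1 - c)) = 2 * (Λ * (C * (X : ℝ) ^ (1 - c))) := by ring
      rw [h5]
      linarith
  · obtain ⟨ν0, hν0, -, HR⟩ := rich_pol hk1 hα' (M := 1) le_rfl 0
    refine ⟨ν0, hν0, fun P hP hPc ν hν1 hν2 => ?_⟩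
    have hR := HR P hP hPc ν hν1 hν2
    have hEs : ind (fun n => n ∈ Sparse P ν) =
        ind (fun n : ℕ => ((1 : ℕ) : ℤ) ∣ n - 0 ∧ Int.fract (P.eval (n : ℝ)) < (n : ℝ) ^ (-ν)) := by
      funext n
      apply ind_congr
      unfold Sparse
      simp
    have hsuff : ∀ θ C : ℝ, 0 < θ → ∃ K : ℝ, 1 ≤ K ∧ ∀ ψ : ℝ → ℝ, Monotone ψ →
        (∀ X : ℕ, 1 ≤ X → (count (Sparse P ν) (fun n => ¬ AtMost n (ψ n)) X : ℝ) ≤ C * (X : ℝ) ^ (1 - ν - θ)) →
        ∀ n : ℕ, 1 ≤ n → AtMost n (ψ (K * (n : ℝ) ^ K) + K * (1 + Real.log n)) := by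
      intro θ C' hθ
      have hB := baseLB_all (B := fun n : ℕ => ((1 : ℕ) : ℤ) ∣ n - 0) (fun n => by simp)
      obtain ⟨K, hK, HK⟩ := suff_ind hR hB (B' := fun _ => True) hN_all adv_K (C0 := C') hθ
      refine ⟨K, hK, fun ψ hψ hbad n hn => ?_⟩
      rw [atMost_iff]
      refine HK ψ hψ (fun X hX => ?_) n hn trivial
      have h1 := hbad X hX
      rw [count_eq, hEs] at h1
      simp only [atMost_iff] at h1
      exact h1
    refine ⟨?_, ?_⟩
    · intro θ C' hθ
      obtain ⟨K, -, HK⟩ := hsuff θ C' hθ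
      exact ⟨K, HK⟩
    · constructor
      · rintro ⟨c', hc'⟩
        refine ⟨c', 1, 0, one_pos, fun X hX => ?_⟩
        rw [count_eq, zero_mul]
        refine le_of_eq (Finset.sum_eq_zero fun n _ => ?_)
        rw [ind_neg (P := fun n => 2 ≤ n ∧ ¬ AtMost n (c' * Real.log n)) (fun h => h.2 (hc' n h.1)), mul_zero]
      · rintro ⟨c', θ, C', hθ, hbad⟩
        obtain ⟨K, hK, HK⟩ := hsuff θ C' hθ
        have hψ : Monotone (fun y : ℝ => max c' 0 * Real.log (max y 1)) := by
          intro y z hyz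
          apply mul_le_mul_of_nonneg_left _ (le_max_right _ _)
          exact Real.log_le_log (by positivity) (max_le_max_right _ hyz)
        obtain ⟨c'', hc''⟩ := log_bound hK c'
        refine ⟨c'', fun n hn => ?_⟩
        have hb : ∀ X : ℕ, 1 ≤ X → (count (Sparse P ν) (fun n => ¬ AtMost n ((fun y : ℝ => max c' 0 * Real.log (max y 1)) n)) X : ℝ) ≤
            C' * (X : ℝ) ^ (1 - ν - θ) := by
          intro X hX
          refine le_trans ?_ (hbad X hX)
          rw [count_eq, count_eq]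
          apply Finset.sum_le_sum
          intro n hn
          rw [Finset.mem_Icc] at hn
          apply mul_le_mul_of_nonneg_left _ (ind_nonneg _ _)
          have hnR : (1 : ℝ) ≤ n := by exact_mod_cast hn.1
          apply ind_mono
          intro k4
          beta_reduce at k4
          rw [max_eq_left hnR] at k4
          refine ⟨?_, fun k5 => k4 ?_⟩
          · by_contra hcon
            have : n = 1 := by omega
            subst this
            exact k4 ⟨0, sigma_eq H_one, by simp⟩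
          · obtain ⟨t, ht1, ht2⟩ := k5
            refine ⟨t, ht1, ht2.trans ?_⟩
            exact mul_le_mul_of_nonneg_right (le_max_left _ _) (Real.log_nonneg hnR)
        obtain ⟨t, ht1, ht2⟩ := HK _ hψ hb n (by omega)
        exact ⟨t, ht1, ht2.trans (hc'' n hn)⟩

end Pool.Agent.Results.MP_a1568a_nt.FractionalParts
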