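import Mathlib
import Pool.Agent.X62.BF.Laws
import Pool.Agent.X62.BF.Joint
import Pool.Agent.X62.BF.PhiS

set_option autoImplicit false

/-!
The joint law of the total stopping times of `k` integers and of their pairwise products.
-/

namespace Pool.Agent.Results.MP_a1568a_nt.JointLawAtProducts

open Filter Topology Finset

/-- the `3x+1` function -/
def T (n : ℕ) : ℕ := if n % 2 = 0 then n / 2 else (3 * n + 1) / 2

/-- `t` is the total stopping time of `n` -/
def IsTotalStoppingTime (n t : ℕ) : Prop := T^[t] n = 1 ∧ ∀ j < t, T^[j] n ≠ 1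

/-- the number of odd terms among `n, T n, ..., T^(k-1) n` -/
def odds (k n : ℕ) : ℕ := ((Finset.range k).filter fun i => T^[i] n % 2 = 1).card

/-- the positive integers with the property `P` have the natural density `δ` -/
def HasDensity (P : ℕ → Prop) (δ : ℝ) : Prop :=
  Tendsto (fun N : ℕ => ({n : ℕ | 1 ≤ n ∧ n ≤ N ∧ P n}.ncard : ℝ) / N) atTop (𝓝 δ)

/-- `2 / log (4/3) * log n + x * log 3 * √(2 log n / (log (4/3))^3)` -/
noncomputable def bound (x : ℝ) (n : ℕ) : ℝ :=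
  2 / Real.log (4 / 3) * Real.log n
    + x * (Real.log 3 * Real.sqrt (2 * Real.log n / Real.log (4 / 3) ^ 3))

/-- The distribution function of the standard normal law. -/
noncomputable def Phi (x : ℝ) : ℝ :=
  ProbabilityTheory.cdf (ProbabilityTheory.gaussianReal 0 1) x

/-- The total stopping time of `n` is finite, at most `bound x n` and `≡ a` modulo `m`, and the number of
odd terms before `1` is `≡ b` modulo `m`. -/
def Level (m : ℕ) (a b : ℤ) (x : ℝ) (n : ℕ) : Prop :=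
  ∃ t : ℕ, (t : ℝ) ≤ bound x n ∧ IsTotalStoppingTime n t ∧ (t : ℤ) ≡ a [ZMOD m] ∧ (odds t n : ℤ) ≡ b [ZMOD m]

/-- The total stopping time `t` of `n` is finite and `|t / log n - 2 / log (4/3)| ≤ η`. -/
def Typical (η : ℝ) (n : ℕ) : Prop :=
  ∃ t : ℕ, IsTotalStoppingTime n t ∧ |(t : ℝ) / Real.log n - 2 / Real.log (4 / 3)| ≤ η

/-- The scales `P i` are at least `N₀`, and `P j ^ α ≤ P i ≤ P j ^ ϑ` for `i < j`. -/
def Scales {k : ℕ} (α ϑ : ℝ) (N₀ : ℕ) (P : Fin k → ℕ) : Prop :=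
  (∀ i, N₀ ≤ P i) ∧ ∀ i j, i < j → (P j : ℝ) ^ α ≤ P i ∧ (P i : ℝ) ≤ (P j : ℝ) ^ ϑ

open Pool.Agent.X62.BF (PL PL_congr PL_not joint_sets joint_law pl_laws lln)
open Pool.Agent.H499R2.ND (Dn Tn)

theorem hH (k n : ℕ) : Pool.Agent.H499R2.HL.H k n ↔ IsTotalStoppingTime n k := Iff.rfl

theorem hodd (k n : ℕ) : odds k n = Pool.Agent.H499R2.LT.odn k n := rfl

theorem phi01 (x : ℝ) : 0 ≤ Phi x ∧ Phi x ≤ 1 := by
  unfold Phi
  rw [← Pool.Agent.H499R2.ND.phi_cdf]
  exact Pool.Agent.Y964.LW.phi01 x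

theorem ncard_pi {k : ℕ} (X : Fin k → Finset ℕ) (Q : (Fin k → ℕ) → Prop) [DecidablePred Q] :
    ({v : Fin k → ℕ | (∀ i, v i ∈ X i) ∧ Q v}.ncard : ℝ) = ((Fintype.piFinset X).filter Q).card := by
  rw [← Set.ncard_coe_finset]
  congr 2
  ext v
  simp [Fintype.mem_piFinset]

open scoped Classical in
/-- THE TOTAL STOPPING TIMES OF `k` INTEGERS AND OF THEIR PAIRWISE PRODUCTS. Let `δ > 0` be the natural
density of the positive integers with finite total stopping time (`δ = 1` if and only if all are finite).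
Let `k`, `m ≥ 1`, residues `a i j`, `b i j` modulo `m`, real numbers `x i j` and `ε > 0` be given. Then
there is `ϑ > 0` such that for every `α > 0` there is `N₀` such that for all scales `P i ≥ N₀` with
`P j ^ α ≤ P i ≤ P j ^ ϑ` for `i < j`:
(1) ARBITRARY SETS. For all sets `X i` of integers in `(P i, 2 P i]` the number of the tuples `v`,
`v i ∈ X i`, such that for all `i < j` the total stopping time of `v i * v j` is finite,
`≤ 2 / log (4/3) log n + x i j log 3 √(2 log n / (log (4/3))^3)` (`n = v i * v j`) and `≡ a i j`, and the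
number of odd terms is `≡ b i j` modulo `m`, is `∏_{i < j} δ Φ(x i j) / m²` times `∏ |X i|`, up to
`ε ∏ P i`;
(2) THE JOINT LAW. The number of the tuples `v`, `v i ∈ (P i, 2 P i]`, for which in addition the total
stopping times of the `v i` themselves satisfy the same conditions with `x i i`, `a i i`, `b i i`, is
`∏_{i ≤ j} δ Φ(x i j) / m²` times `∏ P i`, up to `ε ∏ P i`: the `k (k + 1) / 2` total stopping times are
asymptotically independent and normal.
(3) For every `η > 0`, with `ϑ` depending on `η` and `ε`, and arbitrary sets `X i` in `(P i, 2 P i]`: the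
number of the tuples for which all the products `n = v i * v j`, `i < j`, have a finite total stopping time
`t` with `|t / log n - 2 / log (4/3)| ≤ η` is `δ ^ (k (k - 1) / 2) ∏ |X i|` up to `ε ∏ P i`.
(4) DENSE SETS. For `c > 0` and `y i j < x i j` there is `ϑ > 0` such that for every `α > 0` there is `N₀`
such that for such scales all sets `X i` with at least `c P i` elements in `(P i, 2 P i]` contain `v i`
such that for all `i < j` the total stopping time of `v i * v j` is finite, larger than the bound for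
`y i j` and at most the bound for `x i j`, and in the given residue class, as is the number of odd
terms. -/
theorem result : ∃ δ : ℝ, 0 < δ ∧ δ ≤ 1 ∧ (δ = 1 ↔ ∀ n : ℕ, 1 ≤ n → ∃ t, IsTotalStoppingTime n t) ∧
    HasDensity (fun n => ∃ t, IsTotalStoppingTime n t) δ ∧
    (∀ (k m : ℕ), 1 ≤ m → ∀ (a b : Fin k → Fin k → ℤ) (x : Fin k → Fin k → ℝ) (ε : ℝ), 0 < ε →
      ∃ ϑ : ℝ, 0 < ϑ ∧ ∀ α : ℝ, 0 < α → ∃ N₀ : ℕ, ∀ P : Fin k → ℕ, Scales α ϑ N₀ P →
      (∀ X : Fin k → Finset ℕ, (∀ i, X i ⊆ Ioc (P i) (2 * P i)) →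
        |({v : Fin k → ℕ | (∀ i, v i ∈ X i) ∧
            ∀ i j, i < j → Level m (a i j) (b i j) (x i j) (v i * v j)}.ncard : ℝ) -
          (∏ e : Fin k × Fin k with e.1 < e.2, δ * Phi (x e.1 e.2) / m ^ 2) * ∏ i, ((X i).card : ℝ)| ≤
          ε * ∏ i, (P i : ℝ)) ∧
      |({v : Fin k → ℕ | (∀ i, P i < v i ∧ v i ≤ 2 * P i) ∧ (∀ i, Level m (a i i) (b i i) (x i i) (v i)) ∧
            ∀ i j, i < j → Level m (a i j) (b i j) (x i j) (v i * v j)}.ncard : ℝ) -
          (∏ e : Fin k × Fin k with e.1 ≤ e.2, δ * Phi (x e.1 e.2) / m ^ 2) * ∏ i, (P i : ℝ)| ≤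
          ε * ∏ i, (P i : ℝ)) ∧
    (∀ (k : ℕ) (η ε : ℝ), 0 < η → 0 < ε →
      ∃ ϑ : ℝ, 0 < ϑ ∧ ∀ α : ℝ, 0 < α → ∃ N₀ : ℕ, ∀ P : Fin k → ℕ, Scales α ϑ N₀ P →
      ∀ X : Fin k → Finset ℕ, (∀ i, X i ⊆ Ioc (P i) (2 * P i)) →
        |({v : Fin k → ℕ | (∀ i, v i ∈ X i) ∧ ∀ i j, i < j → Typical η (v i * v j)}.ncard : ℝ) -
          δ ^ (k * (k - 1) / 2) * ∏ i, ((X i).card : ℝ)| ≤ ε * ∏ i, (P i : ℝ)) ∧
    (∀ (k m : ℕ), 1 ≤ m → ∀ (a b : Fin k → Fin k → ℤ) (x y : Fin k → Fin k → ℝ) (c : ℝ), 0 < c →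
      (∀ i j, y i j < x i j) →
      ∃ ϑ : ℝ, 0 < ϑ ∧ ∀ α : ℝ, 0 < α → ∃ N₀ : ℕ, ∀ P : Fin k → ℕ, Scales α ϑ N₀ P →
      ∀ X : Fin k → Finset ℕ, (∀ i, X i ⊆ Ioc (P i) (2 * P i)) → (∀ i, c * P i ≤ (X i).card) →
        ∃ v : Fin k → ℕ, (∀ i, v i ∈ X i) ∧ ∀ i j, i < j → ∃ t : ℕ, bound (y i j) (v i * v j) < t ∧
          (t : ℝ) ≤ bound (x i j) (v i * v j) ∧ IsTotalStoppingTime (v i * v j) t ∧
          (t : ℤ) ≡ a i j [ZMOD m] ∧ (odds t (v i * v j) : ℤ) ≡ b i j [ZMOD m]) := by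
  obtain ⟨δ, h0, h1, h2, h3, h4, h5⟩ := pl_laws
  obtain ⟨δ', g0, g1, g2, g3, g4⟩ := Pool.Agent.H499R2.LT.law_one
  have eδ : δ' = δ := tendsto_nhds_unique g3 h3
  rw [eδ] at g4
  -- the laws of the levels
  have hL : ∀ (m : ℕ) (a b : ℤ) (x : ℝ), 1 ≤ m → PL (Level m a b x) (δ * Phi x / m ^ 2) := by
    intro m a b x hm
    have h6 := ((h5 m a b hm).2.2 x).1
    have e : δ / (m : ℝ) ^ 2 * Pool.Agent.H499R2.ND.Phi x = δ * Phi x / m ^ 2 := by
      unfold Phi
      rw [← Pool.Agent.H499R2.ND.phi_cdf]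
      ring
    rw [e] at h6
    refine PL_congr 0 (fun n hn => exists_congr fun k => ?_) h6
    have e2 : Pool.Agent.H499R2.HL.bk x (Real.log n) = bound x n := rfl
    rw [e2, hH, hodd]
    tauto
  have hLd : ∀ (m : ℕ) (a b : ℤ) (x : ℝ), 1 ≤ m → Dn (Level m a b x) (δ * Phi x / m ^ 2) := by
    intro m a b x hm
    exact (g4 m a b hm).2 x
  have h01 : ∀ (m : ℕ) (x : ℝ), 1 ≤ m → 0 ≤ δ * Phi x / m ^ 2 ∧ δ * Phi x / m ^ 2 ≤ 1 := by
    intro m x hm
    have hm1 : (1 : ℝ) ≤ m := by exact_mod_cast hm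
    have hp := phi01 x
    refine ⟨by have := hp.1; positivity, ?_⟩
    rw [div_le_one (by positivity)]
    have : δ * Phi x ≤ 1 := mul_le_one₀ h1 hp.1 hp.2
    nlinarith
  have hll : ∀ η : ℝ, 0 < η → PL (Typical η) δ := by
    intro η hη
    have hrr := Pool.Agent.H499R2.HL.rr_pos
    have hl3 : 0 < Real.log 3 := Real.log_pos (by norm_num)
    have h6 := lln (f := fun k _ => (k : ℝ)) (α := 2 / Real.log (4 / 3))
      (σ := Real.log 3 * Pool.Agent.H499R2.HL.rr) (δ := δ) (η := η) (by positivity) h0.le h1 hη (fun x => by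
        have h7 := ((h5 1 0 0 le_rfl).2.2 x).1
        have e1 : δ / ((1 : ℕ) : ℝ) ^ 2 * Pool.Agent.H499R2.ND.Phi x = δ * Pool.Agent.H499R2.ND.Phi x := by simp
        rw [e1] at h7
        refine PL_congr 0 (fun n _ => exists_congr fun k => and_congr_right fun _ => ?_) h7
        rw [← Pool.Agent.Y964.LW.bk_thr]
        simp [Int.modEq_one]) h4
    refine PL_congr 2 (fun n hn => ?_) h6
    have hL : 0 < Real.log n := Real.log_pos (by exact_mod_cast (by omega : 1 < n))
    have e : ∀ t : ℕ, |(t : ℝ) - 2 / Real.log (4 / 3) * Real.log n| ≤ η * Real.log n ↔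
        |(t : ℝ) / Real.log n - 2 / Real.log (4 / 3)| ≤ η := by
      intro t
      have e1 : (t : ℝ) - 2 / Real.log (4 / 3) * Real.log n =
          ((t : ℝ) / Real.log n - 2 / Real.log (4 / 3)) * Real.log n := by field_simp
      rw [e1, abs_mul, abs_of_pos hL]
      exact mul_le_mul_iff_left₀ hL
    exact exists_congr fun k => by rw [hH, e]
  refine ⟨δ, h0, h1, ?_, ?_, ?_, ?_, ?_⟩
  · rw [h2]
    refine forall₂_congr fun n hn => ?_
    exact (Pool.Agent.Y964.LW.hit_iff n)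
  · refine Pool.Agent.H499R2.LT.Dn_iff (fun n hn => ?_) h3
    exact (Pool.Agent.Y964.LW.hit_iff n)
  · intro k m hm a b x ε hε
    obtain ⟨ϑ1, t1, k1⟩ := joint_sets k (fun e => Level m (a e.1 e.2) (b e.1 e.2) (x e.1 e.2))
      (fun e => δ * Phi (x e.1 e.2) / m ^ 2) (fun e => h01 m _ hm) (fun e => hL m _ _ _ hm) hε
    obtain ⟨ϑ2, t2, k2⟩ := joint_law k (fun i => Level m (a i i) (b i i) (x i i))
      (fun i => δ * Phi (x i i) / m ^ 2) (fun i => h01 m _ hm) (fun i => hLd m _ _ _ hm)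
      (fun e => Level m (a e.1 e.2) (b e.1 e.2) (x e.1 e.2))
      (fun e => δ * Phi (x e.1 e.2) / m ^ 2) (fun e => h01 m _ hm) (fun e => hL m _ _ _ hm) hε
    refine ⟨min ϑ1 ϑ2, lt_min t1 t2, fun α hα => ?_⟩
    obtain ⟨N1, k1⟩ := k1 α hα
    obtain ⟨N2, k2⟩ := k2 α hα
    refine ⟨max 1 (max N1 N2), fun P hP => ?_⟩
    have hP1 : ∀ i, (1 : ℝ) ≤ P i := fun i => by exact_mod_cast (le_max_left _ _).trans (hP.1 i)
    have hN1 : ∀ i, N1 ≤ P i := fun i => ((le_max_left _ _).trans (le_max_right _ _)).trans (hP.1 i)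
    have hN2 : ∀ i, N2 ≤ P i := fun i => ((le_max_right _ _).trans (le_max_right _ _)).trans (hP.1 i)
    refine ⟨fun X hX => ?_, ?_⟩
    · have h := k1 P hN1 (fun i j hij => ⟨(hP.2 i j hij).1, (hP.2 i j hij).2.trans
        (Real.rpow_le_rpow_of_exponent_le (hP1 j) (min_le_left _ _))⟩) X hX
      rw [ncard_pi]
      convert h
    · have h := k2 P hN2 (fun i j hij => ⟨(hP.2 i j hij).1, (hP.2 i j hij).2.trans
        (Real.rpow_le_rpow_of_exponent_le (hP1 j) (min_le_right _ _))⟩)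
      have e1 : {v : Fin k → ℕ | (∀ i, P i < v i ∧ v i ≤ 2 * P i) ∧ (∀ i, Level m (a i i) (b i i) (x i i) (v i)) ∧
            ∀ i j, i < j → Level m (a i j) (b i j) (x i j) (v i * v j)} =
          {v : Fin k → ℕ | (∀ i, v i ∈ Ioc (P i) (2 * P i)) ∧ ((∀ i, Level m (a i i) (b i i) (x i i) (v i)) ∧
            ∀ i j, i < j → Level m (a i j) (b i j) (x i j) (v i * v j))} := by
        ext v
        simp only [Set.mem_ofPred_eq, mem_Ioc]
      rw [e1, ncard_pi]
      have e2 : (∏ e : Fin k × Fin k with e.1 ≤ e.2, δ * Phi (x e.1 e.2) / (m : ℝ) ^ 2) =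
          (∏ i, δ * Phi (x i i) / (m : ℝ) ^ 2) * ∏ e : Fin k × Fin k with e.1 < e.2, δ * Phi (x e.1 e.2) / (m : ℝ) ^ 2 := by
        have e3 : (univ.filter (fun e : Fin k × Fin k => e.1 ≤ e.2)) =
            (univ.image (fun i : Fin k => (i, i))) ∪ univ.filter (fun e : Fin k × Fin k => e.1 < e.2) := by
          ext ⟨i, j⟩
          simp only [mem_filter, mem_univ, true_and, mem_union, mem_image, Prod.mk.injEq]
          constructor
          · intro h
            rcases eq_or_lt_of_le h with h | h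
            · exact Or.inl ⟨i, rfl, h⟩
            · exact Or.inr h
          · rintro (⟨l, rfl, rfl⟩ | h)
            · exact le_rfl
            · exact h.le
        rw [e3, prod_union, prod_image]
        · intro i _ j _ h
          exact (Prod.mk.inj h).1
        · rw [disjoint_left]
          rintro ⟨i, j⟩ h4 h5
          rw [mem_image] at h4
          obtain ⟨l, _, h6⟩ := h4
          have h7 := (mem_filter.1 h5).2
          rw [Prod.mk.injEq] at h6
          rw [← h6.1, ← h6.2] at h7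
          exact lt_irrefl _ h7
      rw [e2]
      convert h
  · intro k η ε hη hε
    obtain ⟨ϑ, h6, H⟩ := joint_sets k (fun _ => Typical η) (fun _ => δ) (fun _ => ⟨h0.le, h1⟩)
      (fun _ => hll η hη) hε
    refine ⟨ϑ, h6, fun α hα => ?_⟩
    obtain ⟨N0, H⟩ := H α hα
    refine ⟨N0, fun P hP X hX => ?_⟩
    have h := H P hP.1 hP.2 X hX
    rw [ncard_pi]
    have e2 : (∏ e ∈ univ.filter (fun e : Fin k × Fin k => e.1 < e.2), δ) = δ ^ (k * (k - 1) / 2) := by
      rw [prod_const]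
      congr 1
      have e3 : (univ.filter (fun e : Fin k × Fin k => e.1 < e.2)).card = ∑ j : Fin k, (j : ℕ) := by
        have : univ.filter (fun e : Fin k × Fin k => e.1 < e.2) =
            univ.biUnion (fun j : Fin k => (Finset.Iio j).image (fun i => (i, j))) := by
          ext ⟨i, j⟩
          simp only [mem_filter, mem_univ, true_and, mem_biUnion, mem_image, Finset.mem_Iio, Prod.mk.injEq]
          constructor
          · intro h; exact ⟨j, i, h, rfl, rfl⟩
          · rintro ⟨j', i', h, rfl, rfl⟩; exact h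
        rw [this, card_biUnion]
        · apply sum_congr rfl
          intro j _
          rw [card_image_of_injective _ (fun _ _ h => (Prod.mk.inj h).1), Fin.card_Iio]
        · intro i _ j _ hij
          rw [Function.onFun, disjoint_left]
          rintro ⟨p, q⟩ h4 h5
          rw [mem_image] at h4 h5
          obtain ⟨_, _, h6⟩ := h4
          obtain ⟨_, _, h7⟩ := h5
          exact hij ((Prod.mk.inj h6).2.trans (Prod.mk.inj h7).2.symm)
      rw [e3, Fin.sum_univ_eq_sum_range (fun j => j) k, sum_range_id]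
    rw [← e2]
    convert h
  · intro k m hm a b x y c hc hyx
    have hm0 : (0 : ℝ) < m := by exact_mod_cast hm
    have hl3 : 0 < Real.log 3 := Real.log_pos (by norm_num)
    have hPhi : ∀ i j, Phi (y i j) < Phi (x i j) := by
      intro i j
      unfold Phi
      rw [← Pool.Agent.H499R2.ND.phi_cdf, ← Pool.Agent.H499R2.ND.phi_cdf]
      exact Pool.Agent.X62.BF.Phi_strict (hyx i j)
    have hd : ∀ e : Fin k × Fin k, PL (fun n => Level m (a e.1 e.2) (b e.1 e.2) (x e.1 e.2) n ∧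
        ¬ Level m (a e.1 e.2) (b e.1 e.2) (y e.1 e.2) n)
        (δ * Phi (x e.1 e.2) / m ^ 2 - δ * Phi (y e.1 e.2) / m ^ 2) := by
      intro e
      refine Pool.Agent.X62.BF.PL_diff (hL m (a e.1 e.2) (b e.1 e.2) (y e.1 e.2) hm)
        (hL m (a e.1 e.2) (b e.1 e.2) (x e.1 e.2) hm) ?_ (fun _ => Iff.rfl)
      rintro n ⟨l, g1, g2, g3⟩
      refine ⟨l, g1.trans ?_, g2, g3⟩
      unfold bound
      have : 0 ≤ Real.log 3 * Real.sqrt (2 * Real.log n / Real.log (4 / 3) ^ 3) := by positivity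
      have := hyx e.1 e.2
      nlinarith
    set η : Fin k × Fin k → ℝ := fun e => δ * Phi (x e.1 e.2) / m ^ 2 - δ * Phi (y e.1 e.2) / m ^ 2 with hη
    have hη0 : ∀ e, 0 < η e := by
      intro e
      have e1 : η e = δ * (Phi (x e.1 e.2) - Phi (y e.1 e.2)) / m ^ 2 := by rw [hη]; ring
      rw [e1]
      have : 0 < Phi (x e.1 e.2) - Phi (y e.1 e.2) := by linarith [hPhi e.1 e.2]
      positivity
    have hη1 : ∀ e, η e ≤ 1 := by
      intro e
      have := (h01 m (x e.1 e.2) hm).2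
      have := (h01 m (y e.1 e.2) hm).1
      show δ * Phi (x e.1 e.2) / m ^ 2 - δ * Phi (y e.1 e.2) / m ^ 2 ≤ 1
      linarith
    set ε : ℝ := (∏ e ∈ univ.filter (fun e : Fin k × Fin k => e.1 < e.2), η e) * c ^ k / 2 with hε
    have hE0 : 0 < ∏ e ∈ univ.filter (fun e : Fin k × Fin k => e.1 < e.2), η e := prod_pos fun e _ => hη0 e
    have hε0 : 0 < ε := by positivity
    obtain ⟨ϑ, h6, H⟩ := joint_sets k _ η (fun e => ⟨(hη0 e).le, hη1 e⟩) hd hε0
    refine ⟨ϑ, h6, fun α hα => ?_⟩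
    obtain ⟨N0, H⟩ := H α hα
    refine ⟨max 1 N0, fun P hP X hX hXc => ?_⟩
    have h : |(#{v ∈ Fintype.piFinset X | ∀ i j : Fin k, i < j →
        (Level m (a i j) (b i j) (x i j) (v i * v j) ∧ ¬ Level m (a i j) (b i j) (y i j) (v i * v j))} : ℝ) -
        (∏ e ∈ univ.filter (fun e : Fin k × Fin k => e.1 < e.2), η e) * ∏ i, ((X i).card : ℝ)| ≤
        ε * ∏ i, (P i : ℝ) := by
      convert H P (fun i => (le_max_right _ _).trans (hP.1 i)) hP.2 X hX
    have hP1 : ∀ i, 1 ≤ P i := fun i => (le_max_left _ _).trans (hP.1 i)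
    have hPr : 0 < ∏ i, (P i : ℝ) := prod_pos fun i _ => by exact_mod_cast hP1 i
    have hX2 : c ^ k * ∏ i, (P i : ℝ) ≤ ∏ i, ((X i).card : ℝ) := by
      calc c ^ k * ∏ i, (P i : ℝ) = ∏ i, (c * P i) := by
            rw [prod_mul_distrib, prod_const, card_univ, Fintype.card_fin]
        _ ≤ _ := prod_le_prod (fun i _ => by positivity) (fun i _ => hXc i)
    have h7 : 0 < (#{v ∈ Fintype.piFinset X | ∀ i j : Fin k, i < j →
        (Level m (a i j) (b i j) (x i j) (v i * v j) ∧ ¬ Level m (a i j) (b i j) (y i j) (v i * v j))} : ℝ) := by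
      rw [abs_le] at h
      have h8 := mul_le_mul_of_nonneg_left hX2 hE0.le
      have h9 : ε * ∏ i, (P i : ℝ) = (∏ e ∈ univ.filter (fun e : Fin k × Fin k => e.1 < e.2), η e) *
        (c ^ k * ∏ i, (P i : ℝ)) / 2 := by rw [hε]; ring
      have h10 : 0 < (∏ e ∈ univ.filter (fun e : Fin k × Fin k => e.1 < e.2), η e) *
        (c ^ k * ∏ i, (P i : ℝ)) := by positivity
      linarith [h.1]
    have h8 : 0 < #{v ∈ Fintype.piFinset X | ∀ i j : Fin k, i < j →
        (Level m (a i j) (b i j) (x i j) (v i * v j) ∧ ¬ Level m (a i j) (b i j) (y i j) (v i * v j))} := by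
      exact_mod_cast h7
    obtain ⟨v, hv⟩ := card_pos.1 h8
    rw [mem_filter, Fintype.mem_piFinset] at hv
    refine ⟨v, hv.1, fun i j hij => ?_⟩
    obtain ⟨⟨t, u1, u2, u3, u4⟩, h9⟩ := hv.2 i j hij
    refine ⟨t, ?_, u1, u2, u3, u4⟩
    by_contra hcon
    push Not at hcon
    exact h9 ⟨t, hcon, u2, u3, u4⟩

end Pool.Agent.Results.MP_a1568a_nt.JointLawAtProducts
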